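import Pool.Agent.Helper17.CR.Stmts2

/-!
MP_c38931_co, part 2: module ZERO.
-/

set_option autoImplicit false

namespace Pool.Agent.Helper17.CR

open Polynomial

theorem zero_three (c0 c1 c2 H y : ℤ) (h0 : |c0| ≤ H) (h1 : |c1| ≤ H) (hy : 2 * H < y)
    (he : c0 + y * c1 + y ^ 2 * c2 = 0) : c0 = 0 ∧ c1 = 0 ∧ c2 = 0 := by
  have hH : 0 ≤ H := (abs_nonneg _).trans h0
  have hy1 : 1 ≤ y := by omega
  have h0' := abs_le.mp h0
  have h1' := abs_le.mp h1
  have hyc1 : |y * c1| ≤ y * H := by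
    rw [abs_mul, abs_of_pos (by omega : 0 < y)]
    exact mul_le_mul_of_nonneg_left h1 (by omega)
  have hyc1' := abs_le.mp hyc1
  have hc2 : c2 = 0 := by
    by_contra hne
    have h2 : 1 ≤ |c2| := Int.one_le_abs hne
    have h3 : |y ^ 2 * c2| = y ^ 2 * |c2| := by
      rw [abs_mul, abs_of_nonneg (sq_nonneg y)]
    have h4 : y ^ 2 * c2 = -(c0 + y * c1) := by linarith
    have h5 : |y ^ 2 * c2| ≤ H + y * H := by
      rw [h4, abs_neg]
      exact (abs_add_le _ _).trans (add_le_add h0 hyc1)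
    rw [h3] at h5
    have h6 : y ^ 2 ≤ y ^ 2 * |c2| := le_mul_of_one_le_right (sq_nonneg y) h2
    nlinarith
  subst hc2
  have he2 : c0 + y * c1 = 0 := by linarith
  have hc1 : c1 = 0 := by
    by_contra hne
    have h2 : 1 ≤ |c1| := Int.one_le_abs hne
    have h4 : y * c1 = -c0 := by linarith
    have h5 : |y * c1| ≤ H := by
      rw [h4, abs_neg]
      exact h0
    rw [abs_mul, abs_of_pos (by omega : 0 < y)] at h5
    have h6 : y ≤ y * |c1| := le_mul_of_one_le_right (by omega) h2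
    omega
  subst hc1
  exact ⟨by linarith, rfl, rfl⟩

theorem zero_spc_ne {D r H : ℕ} {P : Fin 3 → Polynomial ℤ} (hA : Aux D r H P) (y : ℤ)
    (hy : 2 * (H : ℤ) < y) : spc P y ≠ 0 := by
  intro h
  apply hA.ne
  have hc : ∀ i : ℕ, (P 0).coeff i = 0 ∧ (P 1).coeff i = 0 ∧ (P 2).coeff i = 0 := by
    intro i
    have h1 : (spc P y).coeff i = 0 := by rw [h]; simp
    unfold spc at h1
    rw [coeff_add, coeff_add, coeff_C_mul, coeff_C_mul] at h1
    exact zero_three _ _ _ (H : ℤ) y (hA.coef 0 i) (hA.coef 1 i) hy h1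
  funext b
  ext i
  fin_cases b
  · simpa using (hc i).1
  · simpa using (hc i).2.1
  · simpa using (hc i).2.2

theorem zero_hasse (p : Polynomial ℤ) (hp : p ≠ 0) (x : ℤ) :
    (hasseDeriv (p.rootMultiplicity x) p).eval x ≠ 0 := by
  obtain ⟨q, hq, hnd⟩ := exists_eq_pow_rootMultiplicity_mul_and_not_dvd p hp x
  have hqx : q.eval x ≠ 0 := by
    intro h
    exact hnd (dvd_iff_isRoot.mpr h)
  rw [← taylor_coeff]
  have h1 : taylor x p = X ^ (p.rootMultiplicity x) * taylor x q := by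
    have h0 : taylor x (X - Polynomial.C x : Polynomial ℤ) = X := by
      rw [map_sub, taylor_X, taylor_C]
      ring
    conv_lhs => rw [hq]
    rw [taylor_mul, taylor_pow, h0]
  rw [h1]
  have h2 : (X ^ (p.rootMultiplicity x) * taylor x q).coeff (p.rootMultiplicity x) =
      (taylor x q).coeff 0 := by
    have := coeff_X_pow_mul (taylor x q) (p.rootMultiplicity x) 0
    simpa using this
  rw [h2, taylor_coeff_zero]
  exact hqx

theorem st_ZERO (hWDIV : ST_WDIV) (hWBD : ST_WBD) : ST_ZERO := by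
  intro C hC
  obtain ⟨hW1, hW2⟩ := hWBD
  obtain ⟨C', hC', hW2⟩ := hW2 C hC
  refine ⟨C', hC', ?_⟩
  intro D r x y P hr hA hx hy
  have hy' : 2 * ((C ^ r : ℕ) : ℤ) < (y : ℤ) := by exact_mod_cast hy
  have hp := zero_spc_ne hA (y : ℤ) hy'
  set p := spc P (y : ℤ) with hpdef
  set i := p.rootMultiplicity (x : ℤ) with hi
  refine ⟨i, zero_hasse p hp (x : ℤ), ?_⟩
  have hsum : ∑ j, Polynomial.C ((![1, (y : ℤ), (y : ℤ) ^ 2] : Fin 3 → ℤ) j) * P j = p := by
    rw [Fin.sum_univ_three, hpdef]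
    unfold spc
    simp
  have hdvd : (X - Polynomial.C (x : ℤ)) ^ i ∣
      ∑ j, Polynomial.C ((![1, (y : ℤ), (y : ℤ) ^ 2] : Fin 3 → ℤ) j) * P j := by
    rw [hsum]
    exact pow_rootMultiplicity_dvd p (x : ℤ)
  obtain ⟨n, f, hn, hdet, hdiv⟩ := hWDIV P ![1, (y : ℤ), (y : ℤ) ^ 2] (x : ℤ) i
    (by rw [hsum]; exact hp) hdvd
  have hdeg : ∀ b : Fin 3, (P b).natDegree ≤ 10 * r := by
    intro b
    fin_cases b
    · exact hA.deg0
    · exact hA.deg1.trans (by omega)
    · exact hA.deg2.trans (by omega)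
  have hcoef : ∀ (b : Fin 3) (l : ℕ), |(P b).coeff l| ≤ (C : ℤ) ^ r := by
    intro b l
    have := hA.coef b l
    push_cast at this
    exact this
  have hb := hW2 r n (fun j => P (f j)) hr hn (fun j => hdeg (f j)) (fun j l => hcoef (f j) l)
  have hfin := hW1 _ x (i - 2) (C' ^ r) hdet hx hdiv (by
    intro l
    have := hb l
    push_cast
    exact this)
  calc x ^ i ≤ x ^ (2 + (i - 2)) := Nat.pow_le_pow_right hx (by omega)
    _ = x ^ 2 * x ^ (i - 2) := by rw [pow_add]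
    _ ≤ x ^ 2 * C' ^ r := Nat.mul_le_mul_left _ hfin

end Pool.Agent.Helper17.CR
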